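import Pool.Agent.Helper68.Fam.Goals

/-!
# Packet FAM-RED: suppression of independent vertices with at most two neighbours
-/

namespace NApexGraphs.Fam.Helper69

open SimpleGraph NApexGraphs NApexGraphs.Dom NApexGraphs.Fam

theorem red_model {V κ : Type} {K : SimpleGraph κ} {H H' : SimpleGraph V} {Z R : Set V}
    (hK : ∀ k, ∃ l1 l2 l3, K.Adj k l1 ∧ K.Adj k l2 ∧ K.Adj k l3 ∧ l1 ≠ l2 ∧ l1 ≠ l3 ∧ l2 ≠ l3)
    (hRZ : R ⊆ Z) (hind : ∀ r ∈ R, ∀ r' ∈ R, ¬ H.Adj r r') (hlow : ∀ r ∈ R, Low H Z r)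
    (hle : ∀ a ∈ Z \ R, ∀ b ∈ Z \ R, H.Adj a b → H'.Adj a b)
    (hpair : ∀ r ∈ R, ∀ a ∈ Z, ∀ b ∈ Z, a ≠ b → H.Adj r a → H.Adj r b → H'.Adj a b)
    {B : κ → Set V} (hB : IsModel K H B) (hs : ∀ k, B k ⊆ Z) :
    ∃ B' : κ → Set V, IsModel K H' B' ∧ ∀ k, B' k ⊆ Z \ R := by
  rw [isModel_iff] at hB
  obtain ⟨hc, hd, ha⟩ := hB
  -- no branch set is a singleton of `R`
  have hsing : ∀ k, ∀ r ∈ R, r ∈ B k → ∃ z ∈ B k, H.Adj r z := by
    intro k r hr hrk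
    by_contra hcon
    push Not at hcon
    have h1 : B k ⊆ {r} := by
      apply (hc k).2 {r} (Set.singleton_subset_iff.2 hrk) ⟨r, rfl⟩
      intro x hx y hy hxy
      rw [Set.mem_singleton_iff] at hx
      subst hx
      exact absurd hxy (hcon y hy)
    obtain ⟨l1, l2, l3, a1, a2, a3, d12, d13, d23⟩ := hK k
    have nb : ∀ l, K.Adj k l → ∃ y ∈ B l, H.Adj r y := by
      intro l hl
      obtain ⟨x, hx, y, hy, hxy⟩ := ha k l hl
      have hx' : x = r := h1 hx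
      subst hx'
      exact ⟨y, hy, hxy⟩
    obtain ⟨y1, hy1, e1⟩ := nb l1 a1
    obtain ⟨y2, hy2, e2⟩ := nb l2 a2
    obtain ⟨y3, hy3, e3⟩ := nb l3 a3
    have ne : ∀ {l l' : κ} {y y' : V}, l ≠ l' → y ∈ B l → y' ∈ B l' → y ≠ y' := by
      intro l l' y y' hll hy hy' hyy
      subst hyy
      exact Set.disjoint_left.1 (hd l l' hll) hy hy'
    rcases hlow r hr y1 (hs l1 hy1) y2 (hs l2 hy2) y3 (hs l3 hy3) e1 e2 e3 with h | h | h
    · exact ne d12 hy1 hy2 h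
    · exact ne d13 hy1 hy3 h
    · exact ne d23 hy2 hy3 h
  have hnR : ∀ {r z : V}, r ∈ R → H.Adj r z → z ∉ R := fun hr h hz => hind _ hr _ hz h
  refine ⟨fun k => B k \ R, ?_, fun k z hz => ⟨hs k hz.1, hz.2⟩⟩
  rw [isModel_iff]
  refine ⟨?_, ?_, ?_⟩
  · intro k
    refine ⟨?_, ?_⟩
    · obtain ⟨x, hx⟩ := (hc k).1
      by_cases hxR : x ∈ R
      · obtain ⟨z, hz, hxz⟩ := hsing k x hxR hx
        exact ⟨z, hz, hnR hxR hxz⟩
      · exact ⟨x, hx, hxR⟩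
    · intro A hA hne hcl
      have hall : B k ⊆ A ∪ {r | r ∈ R ∧ r ∈ B k ∧ ∃ a ∈ A, H.Adj r a} := by
        apply (hc k).2
        · rintro z (hz | hz)
          · exact (hA hz).1
          · exact hz.2.1
        · obtain ⟨z, hz⟩ := hne
          exact ⟨z, Or.inl hz⟩
        · rintro x (hx | ⟨hxR, hxB, a, haA, hxa⟩) y hy hxy
          · by_cases hyR : y ∈ R
            · exact Or.inr ⟨hyR, hy, x, hx, hxy.symm⟩
            · have hx' := hA hx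
              exact Or.inl (hcl x hx y ⟨hy, hyR⟩
                (hle x ⟨hs k hx'.1, hx'.2⟩ y ⟨hs k hy, hyR⟩ hxy))
          · have hyR : y ∉ R := hnR hxR hxy
            left
            by_cases hay : a = y
            · rw [← hay]; exact haA
            · exact hcl a haA y ⟨hy, hyR⟩
                (hpair x hxR a (hs k (hA haA).1) y (hs k hy) hay hxa hxy)
      rintro z ⟨hz, hzR⟩
      rcases hall hz with h | h
      · exact h
      · exact absurd h.1 hzR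
  · intro k l hkl
    exact (hd k l hkl).mono Set.sdiff_subset Set.sdiff_subset
  · have half : ∀ k l, k ≠ l → ∀ x ∈ B k, x ∈ R → ∀ y ∈ B l, H.Adj x y →
        ∃ x' ∈ B k \ R, ∃ y' ∈ B l \ R, H'.Adj x' y' := by
      intro k l hkl x hx hxR y hy hxy
      obtain ⟨z, hz, hxz⟩ := hsing k x hxR hx
      refine ⟨z, ⟨hz, hnR hxR hxz⟩, y, ⟨hy, hnR hxR hxy⟩, ?_⟩
      apply hpair x hxR z (hs k hz) y (hs l hy) ?_ hxz hxy
      intro hzy
      subst hzy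
      exact Set.disjoint_left.1 (hd k l hkl) hz hy
    intro k l hkl
    obtain ⟨x, hx, y, hy, hxy⟩ := ha k l hkl
    by_cases hxR : x ∈ R
    · exact half k l hkl.ne x hx hxR y hy hxy
    · by_cases hyR : y ∈ R
      · obtain ⟨y', hy', x', hx', h'⟩ := half l k hkl.ne.symm y hy hyR x hx hxy.symm
        exact ⟨x', hx', y', hy', h'.symm⟩
      · exact ⟨x, ⟨hx, hxR⟩, y, ⟨hy, hyR⟩,
          hle x ⟨hs k hx, hxR⟩ y ⟨hs l hy, hyR⟩ hxy⟩

theorem gRED : Goals.RED := by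
  intro V H H' Z R hRZ hind hlow hle hpair hpl
  have h5 : ∀ k : Fin 5, ∃ l1 l2 l3, K5.Adj k l1 ∧ K5.Adj k l2 ∧ K5.Adj k l3 ∧
      l1 ≠ l2 ∧ l1 ≠ l3 ∧ l2 ≠ l3 := by
    intro k
    refine ⟨k + 1, k + 2, k + 3, ?_⟩
    fin_cases k <;> simp
  have h33 : ∀ k : Fin 3 ⊕ Fin 3, ∃ l1 l2 l3, K33.Adj k l1 ∧ K33.Adj k l2 ∧ K33.Adj k l3 ∧
      l1 ≠ l2 ∧ l1 ≠ l3 ∧ l2 ≠ l3 := by
    rintro (k | k)
    · refine ⟨Sum.inr 0, Sum.inr 1, Sum.inr 2, ?_⟩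
      simp
    · refine ⟨Sum.inl 0, Sum.inl 1, Sum.inl 2, ?_⟩
      simp
  refine ⟨?_, ?_⟩
  · rintro ⟨B, hB, hs⟩
    obtain ⟨B', hB', hs'⟩ := red_model h5 hRZ hind hlow hle hpair hB hs
    exact hpl.1 ⟨B', hB', hs'⟩
  · rintro ⟨B, hB, hs⟩
    obtain ⟨B', hB', hs'⟩ := red_model h33 hRZ hind hlow hle hpair hB hs
    exact hpl.2 ⟨B', hB', hs'⟩

end NApexGraphs.Fam.Helper69
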